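import Pool.Agent.H30.EE.TargetsU

/-!
# Board ee_modules, row QDM: restriction of forms to a rational normal curve is onto
-/

set_option autoImplicit false

namespace Pool.Agent.H49.EE

open MvPolynomial SC Pool.Agent.H27.LV Pool.Agent.H17.VG Pool.Agent.H30.EE

section

variable {K : Type} [Field K] {r n : ℕ}

/-- the restriction as a homomorphism of algebras -/
noncomputable def rC (z : Fin (r + 1) → Fin (n + 1) → K) :
    MvPolynomial (Fin (n + 1)) K →ₐ[K] Polynomial K :=
  aeval fun i => ∑ j, Polynomial.C (z j i) * Polynomial.X ^ (j : ℕ)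

theorem resC_eq (z : Fin (r + 1) → Fin (n + 1) → K) (G : MvPolynomial (Fin (n + 1)) K) :
    resC z G = rC z G := rfl

theorem exists_dual {z : Fin (r + 1) → Fin (n + 1) → K} (hz : LinearIndependent K z)
    (i : Fin (r + 1)) : ∃ ξ : Fin (n + 1) → K, rC z (lin ξ) = Polynomial.X ^ (i : ℕ) := by
  obtain ⟨g, hg⟩ := LinearMap.exists_extend ((Finsupp.lapply i : (Fin (r + 1) →₀ K) →ₗ[K] K).comp
    (hz.repr : Submodule.span K (Set.range z) →ₗ[K] (Fin (r + 1) →₀ K)))
  have hgz : ∀ j, g (z j) = if j = i then 1 else 0 := by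
    intro j
    have hj : z j ∈ Submodule.span K (Set.range z) := Submodule.subset_span ⟨j, rfl⟩
    have h1 : g (z j) = (g.comp (Submodule.span K (Set.range z)).subtype) ⟨z j, hj⟩ := rfl
    rw [h1, hg, LinearMap.comp_apply]
    have h2 : hz.repr ⟨z j, hj⟩ = Finsupp.single j 1 := hz.repr_eq_single j _ rfl
    rw [h2, Finsupp.lapply_apply, Finsupp.single_apply]
  have hsum : ∀ j, ∑ l, g (Pi.single l 1) * z j l = if j = i then 1 else 0 := by
    intro j
    rw [← hgz j]
    conv_rhs => rw [← Finset.univ_sum_single (z j)]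
    rw [map_sum]
    refine Finset.sum_congr rfl fun l _ => ?_
    have h1 : (Pi.single l (z j l) : Fin (n + 1) → K) = z j l • Pi.single l 1 := by
      rw [← Pi.single_smul, smul_eq_mul, mul_one]
    rw [h1, map_smul, smul_eq_mul, mul_comm]
  refine ⟨fun l => g (Pi.single l 1), ?_⟩
  unfold lin rC
  rw [map_sum]
  have h1 : ∀ l : Fin (n + 1), (aeval fun i => ∑ j, Polynomial.C (z j i) *
      Polynomial.X ^ (j : ℕ)) (C (g (Pi.single l 1)) * X l) =
      ∑ j : Fin (r + 1), Polynomial.C (g (Pi.single l 1) * z j l) * Polynomial.X ^ (j : ℕ) := by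
    intro l
    rw [map_mul, aeval_X, aeval_C, Polynomial.algebraMap_eq, Finset.mul_sum]
    refine Finset.sum_congr rfl fun j _ => ?_
    rw [Polynomial.C_mul, mul_assoc]
  rw [Finset.sum_congr rfl fun l _ => h1 l, Finset.sum_comm, Finset.sum_eq_single i]
  · rw [← Finset.sum_mul, ← map_sum, hsum i, if_pos rfl, Polynomial.C_1, one_mul]
  · intro j _ hj
    rw [← Finset.sum_mul, ← map_sum, hsum j, if_neg hj, Polynomial.C_0, zero_mul]
  · intro h
    exact absurd (Finset.mem_univ _) h

theorem lin_homog (ξ : Fin (n + 1) → K) : (lin ξ).IsHomogeneous 1 := by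
  unfold lin
  refine IsHomogeneous.sum _ _ _ fun j _ => ?_
  have := (isHomogeneous_C (Fin (n + 1)) (ξ j)).mul (isHomogeneous_X K j)
  rwa [zero_add] at this

theorem exists_pow {z : Fin (r + 1) → Fin (n + 1) → K} (hz : LinearIndependent K z) (a : ℕ) :
    ∀ s ≤ r * a, ∃ G : MvPolynomial (Fin (n + 1)) K, G.IsHomogeneous a ∧
      rC z G = Polynomial.X ^ s := by
  induction a with
  | zero =>
    intro s hs
    have hs0 : s = 0 := by simpa using hs
    subst hs0
    exact ⟨1, isHomogeneous_one _ _, by rw [map_one, pow_zero]⟩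
  | succ a ih =>
    intro s hs
    rw [Nat.mul_succ] at hs
    obtain ⟨G, hG, hG2⟩ := ih (s - min r s) (by omega)
    obtain ⟨ξ, hξ⟩ := exists_dual hz (⟨min r s, by omega⟩ : Fin (r + 1))
    refine ⟨G * lin ξ, hG.mul (lin_homog ξ), ?_⟩
    rw [map_mul, hG2, hξ, ← pow_add]
    congr 1
    simp only
    omega

theorem onto {z : Fin (r + 1) → Fin (n + 1) → K} (hz : LinearIndependent K z) (a : ℕ)
    (P : Polynomial K) (hP : P.natDegree ≤ r * a) :
    ∃ G : MvPolynomial (Fin (n + 1)) K, G.IsHomogeneous a ∧ rC z G = P := by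
  have h1 : ∀ s : ℕ, ∃ G : MvPolynomial (Fin (n + 1)) K, s ≤ r * a → G.IsHomogeneous a ∧
      rC z G = Polynomial.X ^ s := by
    intro s
    by_cases hs : s ≤ r * a
    · obtain ⟨G, hG⟩ := exists_pow hz a s hs
      exact ⟨G, fun _ => hG⟩
    · exact ⟨0, fun h => absurd h hs⟩
  choose G hG using h1
  refine ⟨∑ s ∈ Finset.range (r * a + 1), C (P.coeff s) * G s, ?_, ?_⟩
  · refine IsHomogeneous.sum _ _ _ fun s hs => ?_
    have h2 : s ≤ r * a := Nat.lt_succ_iff.1 (Finset.mem_range.1 hs)
    have := (isHomogeneous_C (Fin (n + 1)) (P.coeff s)).mul (hG s h2).1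
    rwa [zero_add] at this
  · rw [map_sum]
    conv_rhs => rw [Polynomial.as_sum_range' P (r * a + 1) (Nat.lt_succ_iff.2 hP)]
    refine Finset.sum_congr rfl fun s hs => ?_
    have h2 : s ≤ r * a := Nat.lt_succ_iff.1 (Finset.mem_range.1 hs)
    rw [map_mul, (hG s h2).2, ← Polynomial.C_mul_X_pow_eq_monomial]
    congr 1
    unfold rC
    rw [aeval_C, Polynomial.algebraMap_eq]

theorem deg_le (z : Fin (r + 1) → Fin (n + 1) → K) (a : ℕ) (G : MvPolynomial (Fin (n + 1)) K)
    (hG : G.IsHomogeneous a) : (rC z G).natDegree ≤ r * a := by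
  unfold rC
  rw [aeval_def, eval₂_eq']
  refine Polynomial.natDegree_sum_le_of_forall_le _ _ fun m hm => ?_
  have h1 : ∑ i, m i = a := by
    by_contra h
    refine (mem_support_iff.1 hm) (hG.coeff_eq_zero ?_)
    rwa [Finsupp.degree_eq_sum]
  have h2 : ∀ i : Fin (n + 1), (∑ j : Fin (r + 1), Polynomial.C (z j i) *
      (Polynomial.X : Polynomial K) ^ (j : ℕ)).natDegree ≤ r := by
    intro i
    refine Polynomial.natDegree_sum_le_of_forall_le _ _ fun j _ => ?_
    exact (Polynomial.natDegree_C_mul_X_pow_le _ _).trans (Nat.lt_succ_iff.1 j.2)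
  rw [Polynomial.algebraMap_eq]
  refine (Polynomial.natDegree_C_mul_le _ _).trans ?_
  refine (Polynomial.natDegree_prod_le _ _).trans ?_
  rw [← h1, Finset.mul_sum]
  refine Finset.sum_le_sum fun i _ => ?_
  refine Polynomial.natDegree_pow_le.trans ?_
  rw [mul_comm]
  exact Nat.mul_le_mul_right _ (h2 i)

theorem Sd_eq (a : ℕ) : Sd K n a = LinearMap.range (frL K n a) := by
  ext G
  constructor
  · intro h
    exact ⟨fun f => coeff (fs f.1) G, frm_coeff ((mem_homogeneousSubmodule a G).1 h)⟩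
  · rintro ⟨t, rfl⟩
    exact (mem_homogeneousSubmodule a _).2 (frm_homog t)

theorem fin_Sd (a : ℕ) : Module.Finite K (Sd K n a) := by
  rw [Sd_eq]
  exact Module.Finite.range _

theorem dim_Iz {z : Fin (r + 1) → Fin (n + 1) → K} (hz : LinearIndependent K z) (a : ℕ) :
    Module.finrank K (Iz a z) + (r * a + 1) = Module.finrank K (Sd K n a) := by
  have := fin_Sd (K := K) (n := n) a
  let ψ : Sd K n a →ₗ[K] Polynomial.degreeLT K (r * a + 1) :=
    LinearMap.codRestrict _ ((rC z).toLinearMap.domRestrict (Sd K n a)) fun x => by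
      rw [Polynomial.mem_degreeLT]
      refine lt_of_le_of_lt Polynomial.degree_le_natDegree ?_
      have h1 := deg_le z a x.1 ((mem_homogeneousSubmodule a x.1).1 x.2)
      exact_mod_cast Nat.lt_succ_iff.2 h1
  have hψ : Function.Surjective ψ := by
    rintro ⟨P, hP⟩
    have hP' : P.natDegree ≤ r * a := by
      rw [Polynomial.mem_degreeLT] at hP
      by_cases h0 : P = 0
      · rw [h0]; simp
      · rw [Polynomial.degree_eq_natDegree h0] at hP
        exact Nat.lt_succ_iff.1 (by exact_mod_cast hP)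
    obtain ⟨G, hG, hGP⟩ := onto hz a P hP'
    exact ⟨⟨G, (mem_homogeneousSubmodule a G).2 hG⟩, Subtype.ext hGP⟩
  have h1 := LinearMap.finrank_range_add_finrank_ker ψ
  have h2 : Module.finrank K (LinearMap.range ψ) = r * a + 1 := by
    rw [LinearMap.range_eq_top.2 hψ, finrank_top,
      LinearEquiv.finrank_eq (Polynomial.degreeLTEquiv K (r * a + 1)), Module.finrank_fin_fun]
  have h3 : Iz a z = (LinearMap.ker ψ).map (Sd K n a).subtype := by
    ext G
    constructor
    · rintro ⟨hG1, hG2⟩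
      exact ⟨⟨G, hG1⟩, Subtype.ext (LinearMap.mem_ker.1 hG2), rfl⟩
    · rintro ⟨x, hx, rfl⟩
      refine ⟨x.2, ?_⟩
      exact congrArg Subtype.val (LinearMap.mem_ker.1 hx)
  rw [h3, Submodule.finrank_map_subtype_eq]
  omega

theorem li_RM {z : Fin (r + 1) → Fin (n + 1) → K} (hz : LinearIndependent K z) (a : ℕ) :
    LinearIndependent K (RM a z) := by
  rw [Fintype.linearIndependent_iff]
  intro g hg s
  obtain ⟨G, hG, hGs⟩ := exists_pow hz a s (Nat.lt_succ_iff.1 s.2)
  have h1 : ∀ i : ℕ, (rC z G).coeff i = ∑ M : Mon (n + 1) a, coeff (fs M.1) G *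
      (resC z (mono K M.1)).coeff i := by
    intro i
    conv_lhs => rw [← frm_coeff hG]
    unfold frm
    rw [map_sum, Polynomial.finsetSum_coeff]
    refine Finset.sum_congr rfl fun M _ => ?_
    have h2 : rC z (C (coeff (fs M.1) G)) = Polynomial.C (coeff (fs M.1) G) := by
      unfold rC
      rw [aeval_C, Polynomial.algebraMap_eq]
    rw [map_mul, h2, Polynomial.coeff_C_mul]
    rfl
  have h2 : ∑ i : Fin (r * a + 1), g i * (rC z G).coeff i = 0 := by
    simp_rw [h1, Finset.mul_sum]
    rw [Finset.sum_comm]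
    refine Finset.sum_eq_zero fun M _ => ?_
    have h3 := congrFun hg M
    rw [Finset.sum_apply] at h3
    have h4 : ∑ i : Fin (r * a + 1), g i * (coeff (fs M.1) G *
        (resC z (mono K M.1)).coeff i) = coeff (fs M.1) G *
        ∑ i : Fin (r * a + 1), (g i • RM a z i) M := by
      rw [Finset.mul_sum]
      refine Finset.sum_congr rfl fun i _ => ?_
      rw [Pi.smul_apply, smul_eq_mul]
      unfold RM
      ring
    rw [h4, h3]
    exact mul_zero _
  rw [hGs, Finset.sum_eq_single s] at h2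
  · rw [Polynomial.coeff_X_pow_self, mul_one] at h2
    exact h2
  · intro i _ hi
    rw [Polynomial.coeff_X_pow, if_neg (fun h => hi (Fin.ext h)), mul_zero]
  · intro h
    exact absurd (Finset.mem_univ _) h

end

theorem pf_QDM : T_QDM := fun _ _ _ _ a _ hz =>
  ⟨fun P hP => onto hz a P hP, fun G hG => deg_le _ a G hG, dim_Iz hz a, li_RM hz a⟩

end Pool.Agent.H49.EE
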