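import Pool.Agent.H49.EE.ITL
import Pool.Agent.H49.EE.QDM

/-!
# Board ee_modules, row IFR: the dimension of `TL`
-/

set_option autoImplicit false

namespace Pool.Agent.H49.EE

open MvPolynomial SC Pool.Agent.H27.LV Pool.Agent.H17.VG Pool.Agent.H30.EE

section

variable {R K : Type} [Field R] [Field K] [Algebra R K] {n r : ℕ}

/-- charts exist -/
theorem exists_cht (L : Submodule K (Fin (n + 1) → K)) (hL : Module.finrank K L = r + 1) :
    ∃ (J : Fin (r + 1) → Fin (n + 1)) (z : Fin (r + 1) → Fin (n + 1) → K), Cht L J z := by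
  let b : Module.Basis (Fin (r + 1)) K L := Module.finBasisOfFinrankEq K L hL
  let B : Matrix (Fin (r + 1)) (Fin (n + 1)) K := Matrix.of fun i => (b i : Fin (n + 1) → K)
  have hBli : LinearIndependent K B.row :=
    b.linearIndependent.map' L.subtype (Submodule.ker_subtype L)
  have hspan : Submodule.span K (Set.range B.col) = ⊤ := by
    apply Submodule.eq_top_of_finrank_eq
    rw [← Matrix.rank_eq_finrank_span_cols, hBli.rank_matrix, Module.finrank_fin_fun,
      Fintype.card_fin]
  obtain ⟨κ, a, ha, has, hali⟩ := exists_linearIndependent' K B.col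
  rw [hspan] at has
  have hfin : Finite κ := Finite.of_injective a ha
  have hft : Fintype κ := Fintype.ofFinite κ
  have hcard : Fintype.card (Fin (r + 1)) = Fintype.card κ := by
    rw [← Module.finrank_eq_card_basis (Module.Basis.mk hali (by rw [has])),
      Module.finrank_fin_fun, Fintype.card_fin]
  let e : Fin (r + 1) ≃ κ := Fintype.equivOfCardEq hcard
  let J : Fin (r + 1) → Fin (n + 1) := fun i => a (e i)
  let M : Matrix (Fin (r + 1)) (Fin (r + 1)) K := B.submatrix id J
  have hMli : LinearIndependent K M.col := hali.comp e e.injective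
  have hMu : IsUnit M := Matrix.linearIndependent_cols_iff_isUnit.1 hMli
  have hMd : IsUnit M.det := (Matrix.isUnit_iff_isUnit_det M).1 hMu
  let Z : Matrix (Fin (r + 1)) (Fin (n + 1)) K := M⁻¹ * B
  have hMZ : M * Z = B := by
    rw [← Matrix.mul_assoc, Matrix.mul_nonsing_inv M hMd, Matrix.one_mul]
  refine ⟨J, fun i => Z i, ?_, ?_⟩
  · apply le_antisymm
    · rw [Submodule.span_le]
      rintro _ ⟨i, rfl⟩
      have h1 : (Z i : Fin (n + 1) → K) = ∑ l, M⁻¹ i l • (b l : Fin (n + 1) → K) := by
        funext j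
        rw [Finset.sum_apply]
        rfl
      show (Z i : Fin (n + 1) → K) ∈ L
      rw [h1]
      exact Submodule.sum_mem _ fun l _ => Submodule.smul_mem _ _ (b l).2
    · intro w hw
      have h1 : w = ∑ l, b.repr ⟨w, hw⟩ l • (b l : Fin (n + 1) → K) := by
        have h2 := congrArg Subtype.val (b.sum_repr ⟨w, hw⟩)
        simp only [Submodule.coe_sum, Submodule.coe_smul] at h2
        exact h2.symm
      rw [h1]
      refine Submodule.sum_mem _ fun l _ => Submodule.smul_mem _ _ ?_
      have h2 : (b l : Fin (n + 1) → K) = ∑ i, M l i • (Z i : Fin (n + 1) → K) := by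
        funext j
        rw [Finset.sum_apply]
        exact (congrFun (congrFun hMZ l) j).symm
      rw [h2]
      exact Submodule.sum_mem _ fun i _ => Submodule.smul_mem _ _
        (Submodule.subset_span ⟨i, rfl⟩)
  · intro i j
    have h1 : M⁻¹ * M = 1 := Matrix.nonsing_inv_mul M hMd
    have h2 := congrFun (congrFun h1 i) j
    rw [Matrix.one_apply] at h2
    exact h2

theorem J_inj {L : Submodule K (Fin (n + 1) → K)} {J : Fin (r + 1) → Fin (n + 1)}
    {z : Fin (r + 1) → Fin (n + 1) → K} (h : Cht L J z) : Function.Injective J := by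
  intro i j hij
  by_contra hne
  have h1 := h.id i i
  rw [if_pos rfl, hij, h.id, if_neg hne] at h1
  exact zero_ne_one h1

theorem card_Row {J : Fin (r + 1) → Fin (n + 1)} (hJ : Function.Injective J) :
    Fintype.card (Row J) = (r + 1) * (n - r + 1) ∧ r ≤ n := by
  have hrn : r + 1 ≤ n + 1 := by
    have := Fintype.card_le_of_injective J hJ
    simpa using this
  have h1 : Fintype.card {j : Fin (n + 1) // ∀ i, J i ≠ j} = n - r := by
    rw [Fintype.card_subtype]
    have h2 : (Finset.univ.filter fun j : Fin (n + 1) => ∀ i, J i ≠ j) =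
        (Finset.univ.image J)ᶜ := by
      ext j
      simp
    rw [h2, Finset.card_compl, Finset.card_image_of_injective _ hJ, Finset.card_univ,
      Fintype.card_fin, Fintype.card_fin]
    omega
  refine ⟨?_, by omega⟩
  rw [Fintype.card_sum, Fintype.card_prod, h1, Fintype.card_fin]
  ring

end

theorem pf_IFR (hITL : T_ITL) (hISU : T_ISU) : T_IFR := by
  intro R K _ _ _ _ n e r F D x L hS hx hF hxL hL
  obtain ⟨J, z, hc⟩ := exists_cht L hL
  obtain ⟨hsurj, hli⟩ := hISU R K n e r F D x L hS hx hF J z hc hxL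
  obtain ⟨-, -, hT⟩ := hITL R K n e F D x L hS hx
  have hT' := hT r J z hc hxL
  have hfS := fin_Sd (K := K) (n := n) (e + 1)
  have hfin : Module.Finite K (Md (e + 1) x) := by
    have h1 : Md (e + 1) x ≤ Sd K n (e + 1) := inf_le_left
    exact Submodule.finiteDimensional_of_le h1
  let W : Submodule K (Op R K n) :=
    { carrier := {τ | opF τ F ∈ Md (e + 1) x}
      add_mem' := by
        intro τ τ' h h'
        show opF (τ + τ') F ∈ Md (e + 1) x
        rw [opF_add']
        exact Submodule.add_mem _ h h'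
      zero_mem' := by
        show opF (0 : Op R K n) F ∈ Md (e + 1) x
        have h1 := opF_smul' (0 : Op R K n) 0 F
        rw [smul_zero, C_0, zero_mul] at h1
        rw [h1]
        exact Submodule.zero_mem _
      smul_mem' := by
        intro a τ h
        show opF (a • τ) F ∈ Md (e + 1) x
        rw [opF_smul', ← smul_eq_C_mul]
        exact Submodule.smul_mem _ a h }
  let A : W →ₗ[K] Md (e + 1) x :=
    { toFun := fun τ => ⟨opF τ.1 F, τ.2⟩
      map_add' := fun τ τ' => Subtype.ext (opF_add' τ.1 τ'.1 F)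
      map_smul' := fun a τ => Subtype.ext (by
        show opF (a • τ.1) F = a • opF τ.1 F
        rw [opF_smul', smul_eq_C_mul]) }
  have hA : LinearMap.range A = ⊤ := by
    rw [LinearMap.range_eq_top]
    rintro ⟨G, hG⟩
    obtain ⟨τ, hτ⟩ := hS.surj G ((mem_homogeneousSubmodule _ G).1 hG.1)
    exact ⟨⟨τ, by show opF τ F ∈ Md (e + 1) x; rw [hτ]; exact hG⟩, Subtype.ext hτ⟩
  obtain ⟨s, hs⟩ := A.exists_rightInverse_of_surjective hA
  have hs' : ∀ G : Md (e + 1) x, opF (s G).1 F = G.1 := fun G =>
    congrArg Subtype.val (DFunLike.congr_fun hs G)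
  let B : W →ₗ[K] (Row J → K) :=
    { toFun := fun τ => colF J z x τ.1
      map_add' := fun τ τ' => colF_add J z x τ.1 τ'.1
      map_smul' := fun a τ => colF_smul J z x τ.1 a }
  let N : Submodule K (Row J → K) := Submodule.span K {colF J z x (D, 0), colX J x}
  let Φ : Md (e + 1) x →ₗ[K] ((Row J → K) ⧸ N) := N.mkQ.comp (B.comp s)
  have hΦ : ∀ G : Md (e + 1) x, Φ G = 0 ↔ G.1 ∈ TL R (e + 1) F x L := by
    intro G
    have h1 : Φ G = N.mkQ (colF J z x (s G).1) := rfl
    rw [h1, Submodule.mkQ_apply, Submodule.Quotient.mk_eq_zero, ← hT' (s G).1 (s G).2, hs']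
  have hker : TL R (e + 1) F x L = (LinearMap.ker Φ).map (Md (e + 1) x).subtype := by
    ext G
    constructor
    · intro h
      have h1 : G ∈ Md (e + 1) x := ((mem_TL (e + 1) F x L G).1 h).1
      exact ⟨⟨G, h1⟩, LinearMap.mem_ker.2 ((hΦ ⟨G, h1⟩).2 h), rfl⟩
    · rintro ⟨G', hG', rfl⟩
      exact (hΦ G').1 (LinearMap.mem_ker.1 hG')
  have hΦs : LinearMap.range Φ = ⊤ := by
    rw [LinearMap.range_eq_top]
    intro q
    obtain ⟨w, rfl⟩ := N.mkQ_surjective q
    obtain ⟨τ, c, h1, h2⟩ := hsurj w
    refine ⟨⟨opF τ F, h1⟩, ?_⟩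
    have h3 : opF (s ⟨opF τ F, h1⟩).1 F = opF τ F := hs' _
    obtain ⟨a, ha⟩ := diff_op hS h3
    have h4 : Φ ⟨opF τ F, h1⟩ = N.mkQ (colF J z x (s ⟨opF τ F, h1⟩).1) := rfl
    rw [h4, ha, colF_add, colF_smul, h2, Submodule.mkQ_apply, Submodule.mkQ_apply,
      Submodule.Quotient.eq]
    have h5 : w + c • colX J x + a • colF J z x ((D, 0) : Op R K n) - w =
        a • colF J z x ((D, 0) : Op R K n) + c • colX J x := by abel
    rw [h5]
    exact Submodule.mem_span_pair.2 ⟨a, c, rfl⟩
  have hN : Module.finrank K N = 2 := by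
    have h1 : N = Submodule.span K (Set.range ![colF J z x (D, 0), colX J x]) := by
      simp [N, Matrix.range_cons, Set.pair_comm]
    rw [h1, finrank_span_eq_card hli, Fintype.card_fin]
  obtain ⟨hcR, hrn⟩ := card_Row (J_inj hc)
  have h1 := LinearMap.finrank_range_add_finrank_ker Φ
  have h2 := Submodule.finrank_quotient_add_finrank N
  rw [hN, Module.finrank_fintype_fun_eq_card, hcR] at h2
  rw [hΦs, finrank_top] at h1
  rw [hker, Submodule.finrank_map_subtype_eq]
  omega

end Pool.Agent.H49.EE
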