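import Pool.Agent.H30.EE.TargetsI
import Pool.Agent.H97.VG.OP

/-!
# Board ee_modules, row ITL: elements of `TL`
-/

set_option autoImplicit false

namespace Pool.Agent.H49.EE

open MvPolynomial SC Pool.Agent.H27.LV Pool.Agent.H17.VG Pool.Agent.H30.EE

section

variable {R K : Type} [Field R] [Field K] [Algebra R K] {n r : ℕ}

theorem opF_lin' (τ τ' : Op R K n) (a b : K) (G : MvPolynomial (Fin (n + 1)) K) :
    opF (a • τ + b • τ') G = C a * opF τ G + C b * opF τ' G :=
  Pool.Agent.H97.VG.opF_lin τ τ' a b G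

theorem opV_lin' (τ τ' : Op R K n) (a b : K) (z : Fin (n + 1) → K) :
    opV (a • τ + b • τ') z = a • opV τ z + b • opV τ' z :=
  Pool.Agent.H97.VG.opV_lin τ τ' a b z

theorem opF_smul' (τ : Op R K n) (a : K) (G : MvPolynomial (Fin (n + 1)) K) :
    opF (a • τ) G = C a * opF τ G := by
  have h := opF_lin' τ τ a 0 G
  rwa [zero_smul, add_zero, C_0, zero_mul, add_zero] at h

theorem opV_smul' (τ : Op R K n) (a : K) (z : Fin (n + 1) → K) :
    opV (a • τ) z = a • opV τ z := by
  have h := opV_lin' τ τ a 0 z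
  rwa [zero_smul, add_zero, zero_smul, add_zero] at h

theorem opF_add' (τ τ' : Op R K n) (G : MvPolynomial (Fin (n + 1)) K) :
    opF (τ + τ') G = opF τ G + opF τ' G := by
  have h := opF_lin' τ τ' 1 1 G
  rwa [one_smul, one_smul, C_1, one_mul, one_mul] at h

theorem opV_add' (τ τ' : Op R K n) (z : Fin (n + 1) → K) :
    opV (τ + τ') z = opV τ z + opV τ' z := by
  have h := opV_lin' τ τ' 1 1 z
  rwa [one_smul, one_smul, one_smul, one_smul] at h

/-- Leibniz rule -/
theorem opV_leib (τ : Op R K n) (c : K) (w : Fin (n + 1) → K) :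
    opV τ (c • w) = τ.1 c • w + c • opV τ w := by
  funext i
  unfold opV
  simp only [Pi.smul_apply, Pi.add_apply, smul_eq_mul, Derivation.leibniz, mul_sub]
  have h1 : ∑ j, τ.2 i j * (c * w j) = c * ∑ j, τ.2 i j * w j := by
    rw [Finset.mul_sum]
    exact Finset.sum_congr rfl fun j _ => by ring
  rw [h1]
  ring

theorem opV_addv (τ : Op R K n) (w w' : Fin (n + 1) → K) :
    opV τ (w + w') = opV τ w + opV τ w' := by
  funext i
  unfold opV
  simp only [Pi.add_apply, map_add, mul_add, Finset.sum_add_distrib]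
  ring

theorem opV_zerov (τ : Op R K n) : opV τ (0 : Fin (n + 1) → K) = 0 := by
  have h := opV_addv τ 0 0
  rw [add_zero] at h
  exact left_eq_add.1 h

/-- the differences of operators with the same symbol -/
theorem diff_op {d : ℕ} {F : MvPolynomial (Fin (n + 1)) K} {D : Derivation R K K}
    (hS : Sys d F D) {τ τ' : Op R K n} (h : opF τ F = opF τ' F) :
    ∃ c : K, τ = τ' + c • ((D, 0) : Op R K n) := by
  have h1 : opF (τ - τ') F = 0 := by
    have h2 := opF_lin' τ τ' 1 (-1) F
    rw [one_smul, neg_smul, one_smul, ← sub_eq_add_neg, C_1, one_mul, map_neg, C_1, neg_mul,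
      one_mul, h, add_neg_cancel] at h2
    exact h2
  obtain ⟨h2, c, h3⟩ := hS.ker _ h1
  refine ⟨c, ?_⟩
  have h4 : τ - τ' = c • ((D, 0) : Op R K n) := by
    apply Prod.ext
    · exact h3
    · rw [h2]
      exact (smul_zero c).symm
  rw [← h4]
  abel

theorem opF_D {d : ℕ} {F : MvPolynomial (Fin (n + 1)) K} {D : Derivation R K K}
    (hS : Sys d F D) : opF ((D, 0) : Op R K n) F = 0 := by
  unfold opF
  rw [hS.base, zero_add]
  refine Finset.sum_eq_zero fun i _ => ?_
  simp

theorem opV_D (D : Derivation R K K) (x : Fin (n + 1) → K) :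
    opV ((D, 0) : Op R K n) x = fun i => D (x i) := by
  funext i
  unfold opV
  simp

/-- the set which spans `TL` -/
theorem mem_TL (d : ℕ) (F : MvPolynomial (Fin (n + 1)) K) (x : Fin (n + 1) → K)
    (L : Submodule K (Fin (n + 1) → K)) (G : MvPolynomial (Fin (n + 1)) K) :
    G ∈ TL R d F x L ↔ G ∈ Md d x ∧ ∃ τ : Op R K n, opF τ F = G ∧
      (∃ c : K, opV τ x = c • x) ∧ ∀ w ∈ L, opV τ w ∈ L := by
  constructor
  · intro h
    unfold TL at h
    induction h using Submodule.span_induction with
    | mem G hG => exact hG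
    | zero =>
      refine ⟨Submodule.zero_mem _, 0, ?_, ⟨0, ?_⟩, fun w _ => ?_⟩
      · have := opF_smul' (0 : Op R K n) 0 F
        rwa [smul_zero, C_0, zero_mul] at this
      · have := opV_smul' (0 : Op R K n) 0 x
        rwa [smul_zero, zero_smul, ← zero_smul K x] at this
      · have := opV_smul' (0 : Op R K n) 0 w
        rw [smul_zero, zero_smul] at this
        rw [this]
        exact Submodule.zero_mem _
    | add G G' _ _ h h' =>
      obtain ⟨h1, τ, h2, ⟨c, h3⟩, h4⟩ := h
      obtain ⟨h1', τ', h2', ⟨c', h3'⟩, h4'⟩ := h'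
      refine ⟨Submodule.add_mem _ h1 h1', τ + τ', ?_, ⟨c + c', ?_⟩, fun w hw => ?_⟩
      · rw [opF_add', h2, h2']
      · rw [opV_add', h3, h3', add_smul]
      · rw [opV_add']
        exact Submodule.add_mem _ (h4 w hw) (h4' w hw)
    | smul a G _ h =>
      obtain ⟨h1, τ, h2, ⟨c, h3⟩, h4⟩ := h
      refine ⟨Submodule.smul_mem _ a h1, a • τ, ?_, ⟨a * c, ?_⟩, fun w hw => ?_⟩
      · rw [opF_smul', h2, smul_eq_C_mul]
      · rw [opV_smul', h3, smul_smul]
      · rw [opV_smul']
        exact Submodule.smul_mem _ a (h4 w hw)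
  · intro h
    exact Submodule.subset_span h

/-- coordinates of the vectors of `L` -/
theorem cht_repr {L : Submodule K (Fin (n + 1) → K)} {J : Fin (r + 1) → Fin (n + 1)}
    {z : Fin (r + 1) → Fin (n + 1) → K} (h : Cht L J z) {w : Fin (n + 1) → K} (hw : w ∈ L) :
    w = ∑ i, w (J i) • z i := by
  rw [← h.span] at hw
  induction hw using Submodule.span_induction with
  | mem w hw =>
    obtain ⟨l, rfl⟩ := hw
    rw [Finset.sum_eq_single l]
    · rw [h.id, if_pos rfl, one_smul]
    · intro i _ hi
      rw [h.id, if_neg (Ne.symm hi), zero_smul]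
    · intro h1
      exact absurd (Finset.mem_univ _) h1
  | zero => simp
  | add w w' _ _ h1 h2 =>
    conv_lhs => rw [h1, h2]
    rw [← Finset.sum_add_distrib]
    refine Finset.sum_congr rfl fun i _ => ?_
    rw [Pi.add_apply, add_smul]
  | smul a w _ h1 =>
    conv_lhs => rw [h1]
    rw [Finset.smul_sum]
    refine Finset.sum_congr rfl fun i _ => ?_
    rw [Pi.smul_apply, smul_eq_mul, smul_smul]

theorem fq_zero {L : Submodule K (Fin (n + 1) → K)} {J : Fin (r + 1) → Fin (n + 1)}
    {z : Fin (r + 1) → Fin (n + 1) → K} (h : Cht L J z) {w : Fin (n + 1) → K} (hw : w ∈ L)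
    (j : Fin (n + 1)) : fq J z w j = 0 := by
  unfold fq
  have h1 := congrFun (cht_repr h hw) j
  rw [Finset.sum_apply] at h1
  simp only [Pi.smul_apply, smul_eq_mul] at h1
  rw [← h1, sub_self]

theorem fq_J {L : Submodule K (Fin (n + 1) → K)} {J : Fin (r + 1) → Fin (n + 1)}
    {z : Fin (r + 1) → Fin (n + 1) → K} (h : Cht L J z) (w : Fin (n + 1) → K)
    (l : Fin (r + 1)) : fq J z w (J l) = 0 := by
  unfold fq
  rw [Finset.sum_eq_single l]
  · rw [h.id, if_pos rfl, mul_one, sub_self]
  · intro i _ hi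
    rw [h.id, if_neg hi, mul_zero]
  · intro h1
    exact absurd (Finset.mem_univ _) h1

theorem mem_of_fq {L : Submodule K (Fin (n + 1) → K)} {J : Fin (r + 1) → Fin (n + 1)}
    {z : Fin (r + 1) → Fin (n + 1) → K} (h : Cht L J z) {w : Fin (n + 1) → K}
    (hw : ∀ j : {j : Fin (n + 1) // ∀ i, J i ≠ j}, fq J z w j = 0) : w ∈ L := by
  have h1 : w = ∑ i, w (J i) • z i := by
    funext j
    rw [Finset.sum_apply]
    simp only [Pi.smul_apply, smul_eq_mul]
    have h2 : fq J z w j = 0 := by
      by_cases hj : ∀ i, J i ≠ j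
      · exact hw ⟨j, hj⟩
      · push Not at hj
        obtain ⟨l, rfl⟩ := hj
        exact fq_J h w l
    unfold fq at h2
    exact sub_eq_zero.1 h2
  rw [h1, ← h.span]
  exact Submodule.sum_mem _ fun i _ => Submodule.smul_mem _ _ (Submodule.subset_span ⟨i, rfl⟩)

theorem colF_lin (J : Fin (r + 1) → Fin (n + 1)) (z : Fin (r + 1) → Fin (n + 1) → K)
    (x : Fin (n + 1) → K) (τ τ' : Op R K n) (a b : K) :
    colF J z x (a • τ + b • τ') = a • colF J z x τ + b • colF J z x τ' := by
  funext t
  rcases t with i | p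
  · simp only [colF, opV_lin', Pi.add_apply, Pi.smul_apply]
  · simp only [colF, opV_lin', Pi.add_apply, Pi.smul_apply, fq, smul_eq_mul, add_mul,
      Finset.sum_add_distrib, mul_assoc, ← Finset.mul_sum]
    ring

theorem colF_add (J : Fin (r + 1) → Fin (n + 1)) (z : Fin (r + 1) → Fin (n + 1) → K)
    (x : Fin (n + 1) → K) (τ τ' : Op R K n) :
    colF J z x (τ + τ') = colF J z x τ + colF J z x τ' := by
  have h := colF_lin J z x τ τ' 1 1
  rwa [one_smul, one_smul, one_smul, one_smul] at h

theorem colF_smul (J : Fin (r + 1) → Fin (n + 1)) (z : Fin (r + 1) → Fin (n + 1) → K)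
    (x : Fin (n + 1) → K) (τ : Op R K n) (a : K) :
    colF J z x (a • τ) = a • colF J z x τ := by
  have h := colF_lin J z x τ τ a 0
  rwa [zero_smul, add_zero, zero_smul, add_zero] at h

end

theorem pf_ITL : T_ITL := by
  intro R K _ _ _ _ n e F D x L hS hx
  refine ⟨fun G => mem_TL (e + 1) F x L G, ?_, ?_⟩
  · rintro τ τ' h ⟨c, hc⟩ ⟨c', hc'⟩
    obtain ⟨a, ha⟩ := diff_op hS h
    have h1 : opV τ x = opV τ' x + a • fun i => D (x i) := by
      rw [ha, opV_add', opV_smul', opV_D]
    rw [hc, hc'] at h1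
    have h2 : (c' - c) • x + a • (fun i => D (x i)) = 0 := by
      rw [sub_smul, h1]
      abel
    have h3 := (LinearIndependent.pair_iff.1 hx) _ _ h2
    rw [ha, h3.2, zero_smul, add_zero]
  · intro r J z hc hxL τ hτ
    rw [mem_TL]
    constructor
    · rintro ⟨-, τ1, h1, ⟨c, h2⟩, h3⟩
      obtain ⟨a, ha⟩ := diff_op hS h1.symm
      rw [Submodule.mem_span_pair]
      refine ⟨a, c, ?_⟩
      rw [ha, colF_add, colF_smul, add_comm]
      congr 1
      funext t
      rcases t with i | p
      · simp only [colF, colX, h2, Pi.smul_apply]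
      · simp only [colF, colX, Pi.smul_apply, smul_zero]
        refine (fq_zero hc (h3 _ ?_) _).symm
        rw [← hc.span]
        exact Submodule.subset_span ⟨p.1, rfl⟩
    · intro h
      refine ⟨hτ, ?_⟩
      rw [Submodule.mem_span_pair] at h
      obtain ⟨a, b, hab⟩ := h
      have h1 : colF J z x (τ + (-a) • ((D, 0) : Op R K n)) = b • colX J x := by
        rw [colF_add, colF_smul, ← hab, neg_smul]
        abel
      have hL : ∀ w ∈ L, opV (τ + (-a) • ((D, 0) : Op R K n)) w ∈ L := by
        intro w hw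
        rw [← hc.span] at hw
        induction hw using Submodule.span_induction with
        | mem w hw =>
          obtain ⟨l, rfl⟩ := hw
          refine mem_of_fq hc fun j => ?_
          have h2 := congrFun h1 (Sum.inr (l, j))
          simp only [colF, colX, Pi.smul_apply, smul_zero] at h2
          exact h2
        | zero =>
          rw [opV_zerov]
          exact Submodule.zero_mem _
        | add w w' _ _ h2 h3 =>
          rw [opV_addv]
          exact Submodule.add_mem _ h2 h3
        | smul c w hw h2 =>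
          rw [opV_leib]
          rw [hc.span] at hw
          exact Submodule.add_mem _ (Submodule.smul_mem _ _ hw) (Submodule.smul_mem _ _ h2)
      refine ⟨τ + (-a) • ((D, 0) : Op R K n), ?_, ⟨b, ?_⟩, hL⟩
      · rw [opF_add', opF_smul', opF_D hS, mul_zero, add_zero]
      · rw [cht_repr hc (hL x hxL)]
        conv_rhs => rw [cht_repr hc hxL, Finset.smul_sum]
        refine Finset.sum_congr rfl fun i _ => ?_
        have h2 := congrFun h1 (Sum.inl i)
        simp only [colF, colX, Pi.smul_apply, smul_eq_mul] at h2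
        rw [h2, smul_smul]

end Pool.Agent.H49.EE
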