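import Pool.Agent.H30.EE.TargetsU

/-!
# Board ee_modules, row REP: change of the parameter which fixes the base point
-/

set_option autoImplicit false

namespace Pool.Agent.H49.EE

open MvPolynomial SC Pool.Agent.H27.LV Pool.Agent.H17.VG Pool.Agent.H30.EE

/-- the value of the restriction to the curve -/
theorem eval_resC {K : Type} [Field K] {r n : ℕ} (z : Fin (r + 1) → Fin (n + 1) → K)
    (G : MvPolynomial (Fin (n + 1)) K) (t : K) :
    (resC z G).eval t = eval (fun i => ∑ j, z j i * t ^ (j : ℕ)) G := by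
  have h : ((Polynomial.aeval t : Polynomial K →ₐ[K] K).comp
      (aeval (fun i => ∑ j, Polynomial.C (z j i) * Polynomial.X ^ (j : ℕ)) :
        MvPolynomial (Fin (n + 1)) K →ₐ[K] Polynomial K)) =
      (aeval (fun i => ∑ j, z j i * t ^ (j : ℕ)) : MvPolynomial (Fin (n + 1)) K →ₐ[K] K) := by
    apply MvPolynomial.algHom_ext
    intro i
    rw [AlgHom.comp_apply, aeval_X, aeval_X, map_sum]
    refine Finset.sum_congr rfl fun j _ => ?_
    rw [map_mul, map_pow, Polynomial.aeval_X, Polynomial.aeval_C]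
    rfl
  have h2 := DFunLike.congr_fun h G
  rw [AlgHom.comp_apply, Polynomial.aeval_def, Polynomial.eval₂_eq_eval_map,
    Algebra.algebraMap_self, Polynomial.map_id] at h2
  unfold resC
  rw [h2]
  rfl

theorem eval_smul_hom {K : Type} [Field K] {n d : ℕ} {G : MvPolynomial (Fin (n + 1)) K}
    (hG : G.IsHomogeneous d) (c : K) (x : Fin (n + 1) → K) :
    eval (c • x) G = c ^ d * eval x G := by
  rw [eval_eq', eval_eq', Finset.mul_sum]
  refine Finset.sum_congr rfl fun m hm => ?_
  have h1 : ∑ i, m i = d := by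
    by_contra h
    refine (mem_support_iff.1 hm) (hG.coeff_eq_zero ?_)
    rwa [Finsupp.degree_eq_sum]
  simp only [Pi.smul_apply, smul_eq_mul, mul_pow, Finset.prod_mul_distrib]
  rw [Finset.prod_pow_eq_pow_sum, h1]
  ring

/-- the triangular matrix -/
def MT {K : Type} [Field K] (R : ℕ) (a b : K) (j i : Fin (R + 1)) : K :=
  if (i : ℕ) ≤ j then a ^ (i : ℕ) * ((R - i).choose (j - i) : K) * b ^ ((j : ℕ) - i) else 0

theorem sum_MT {K : Type} [Field K] (R : ℕ) (a b t : K) (i : Fin (R + 1)) :
    ∑ j : Fin (R + 1), MT R a b j i * t ^ (j : ℕ) =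
      (a * t) ^ (i : ℕ) * (1 + b * t) ^ (R - i) := by
  have h1 : ∑ j : Fin (R + 1), MT R a b j i * t ^ (j : ℕ) =
      ∑ j ∈ Finset.range (R + 1), (if (i : ℕ) ≤ j then
        a ^ (i : ℕ) * ((R - i).choose (j - i) : K) * b ^ (j - i) else 0) * t ^ j := by
    rw [Finset.sum_range]
    rfl
  have hi : (i : ℕ) ≤ R := Nat.lt_succ_iff.1 i.2
  obtain ⟨m, hm⟩ : ∃ m, R + 1 = i + (m + 1) := ⟨R - i, by omega⟩
  have hm' : R - i = m := by omega
  have hr : Finset.range (R + 1) = Finset.range (i + (m + 1)) := congrArg Finset.range hm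
  rw [h1, hr, Finset.sum_range_add, Finset.sum_eq_zero, zero_add, hm', add_comm 1, add_pow,
    Finset.mul_sum]
  · refine Finset.sum_congr rfl fun x hx => ?_
    rw [if_pos (by omega), Nat.add_sub_cancel_left, one_pow, mul_one, mul_pow, mul_pow, pow_add]
    ring
  · intro x hx
    have h2 : ¬ (i : ℕ) ≤ x := by
      have := Finset.mem_range.1 hx
      omega
    rw [if_neg h2, zero_mul]

theorem det_MT {K : Type} [Field K] (R : ℕ) (a b : K) (ha : a ≠ 0) :
    (Matrix.of (MT R a b)).det ≠ 0 := by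
  rw [Matrix.det_of_isLowerTriangular]
  · rw [Finset.prod_ne_zero_iff]
    intro i _
    simp [MT, ha]
  · intro i j hij
    have h1 : ¬ (j : ℕ) ≤ i := by
      have h2 : i < j := hij
      have := Fin.lt_def.1 h2
      omega
    simp [MT, h1]

theorem pf_REP : T_REP := by
  intro K _ _ r n z a b ha hz
  set M : Matrix (Fin (r + 1 + 1)) (Fin (r + 1 + 1)) K := Matrix.of (MT (r + 1) a b) with hM
  have hdet : M.det ≠ 0 := det_MT (r + 1) a b ha
  let z' : Fin (r + 1 + 1) → Fin (n + 1) → K := fun j => ∑ i, M j i • z i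
  have hli : LinearIndependent K z' := by
    rw [Fintype.linearIndependent_iff]
    intro g hg
    have h1 : ∑ i, (Matrix.vecMul g M) i • z i = 0 := by
      rw [← hg]
      simp only [z', Finset.smul_sum, Matrix.vecMul, dotProduct, Finset.sum_smul, smul_smul]
      rw [Finset.sum_comm]
    have h2 := Fintype.linearIndependent_iff.1 hz _ h1
    have h3 : Matrix.vecMul g M = 0 := funext h2
    have h4 := Matrix.eq_zero_of_vecMul_eq_zero hdet h3
    intro i
    rw [h4]
    rfl
  refine ⟨z', hli, ?_, ?_, ?_, ?_⟩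
  · simp only [z']
    rw [Finset.sum_eq_single 0]
    · have h1 : M 0 0 = 1 := by simp [hM, MT]
      rw [h1, one_smul]
    · intro i _ hi
      have h1 : M 0 i = 0 := by
        have h2 : ¬ (i : ℕ) ≤ ((0 : Fin (r + 1 + 1)) : ℕ) := by
          intro h3
          apply hi
          apply Fin.ext
          simpa using h3
        simp only [hM, Matrix.of_apply, MT]
        rw [if_neg h2]
      rw [h1, zero_smul]
    · intro h
      exact absurd (Finset.mem_univ _) h
  · simp only [z']
    rw [Fin.sum_univ_succ, Fin.sum_univ_succ, Finset.sum_eq_zero, add_zero,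
      add_comm (M 1 0 • z 0)]
    · have h1 : M 1 (Fin.succ 0) = a := by simp [hM, MT]
      have h2 : M 1 0 = ((r + 1 : ℕ) : K) * b := by simp [hM, MT]
      rw [h1, h2]
      rfl
    · intro i _
      have h1 : M 1 i.succ.succ = 0 := by
        have h2 : ¬ ((i.succ.succ : Fin (r + 1 + 1)) : ℕ) ≤ ((1 : Fin (r + 1 + 1)) : ℕ) := by
          simp
        simp only [hM, Matrix.of_apply, MT]
        rw [if_neg h2]
      rw [h1, zero_smul]
  · have hle : Submodule.span K (Set.range z') ≤ Submodule.span K (Set.range z) := by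
      rw [Submodule.span_le]
      rintro _ ⟨j, rfl⟩
      exact Submodule.sum_mem _ fun i _ => Submodule.smul_mem _ _
        (Submodule.subset_span ⟨i, rfl⟩)
    refine Submodule.eq_of_le_of_finrank_eq hle ?_
    rw [finrank_span_eq_card hli, finrank_span_eq_card hz]
  · intro G d hG t ht
    rw [eval_resC, eval_resC]
    have h1 : (fun i => ∑ j, z' j i * t ^ (j : ℕ)) =
        (1 + b * t) ^ (r + 1) • fun i => ∑ j, z j i * (a * t / (1 + b * t)) ^ (j : ℕ) := by
      funext l
      simp only [z', Pi.smul_apply, smul_eq_mul, Finset.sum_apply, Finset.sum_mul]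
      rw [Finset.sum_comm, Finset.mul_sum]
      refine Finset.sum_congr rfl fun i _ => ?_
      have h2 : ∑ j : Fin (r + 1 + 1), M j i * z i l * t ^ (j : ℕ) =
          z i l * ∑ j : Fin (r + 1 + 1), MT (r + 1) a b j i * t ^ (j : ℕ) := by
        rw [Finset.mul_sum]
        refine Finset.sum_congr rfl fun j _ => ?_
        simp only [hM, Matrix.of_apply]
        ring
      rw [h2, sum_MT]
      have hi : (i : ℕ) ≤ r + 1 := Nat.lt_succ_iff.1 i.2
      have h3 : (1 + b * t) ^ (r + 1) = (1 + b * t) ^ (i : ℕ) * (1 + b * t) ^ (r + 1 - i) := by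
        rw [← pow_add]
        congr 1
        omega
      have hne : (1 + b * t) ^ (i : ℕ) ≠ 0 := pow_ne_zero _ ht
      have h4 : (a * t) ^ (i : ℕ) = ((a * t) ^ (i : ℕ) / (1 + b * t) ^ (i : ℕ)) *
          (1 + b * t) ^ (i : ℕ) := (div_mul_cancel₀ _ hne).symm
      rw [h3, div_pow]
      conv_lhs => rw [h4]
      ring
    rw [h1, eval_smul_hom hG, ← pow_mul]

end Pool.Agent.H49.EE
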